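import Pool.Agent.MP_4e44b6_al.H30.M2Nec
import Pool.Agent.MP_4e44b6_al.H30.M2Fin

namespace Pool.Agent.Results.MP_4e44b6_al.MatrixImages

open Pool.Agent.MP_4e44b6_al.H30

/-- The images of semihomogeneous polynomials on `M₂(ℝ)` are exactly the admissible sets. -/
theorem result :
    (∀ (m : ℕ) (w : Fin m → ℤ) (d : ℤ) (p : FreeAlgebra ℝ (Fin m)), d ≠ 0 → IsWHom w d p →
      AdmM (image M2 p)) ∧
    (∀ T : Set M2, AdmM T → ∃ (m : ℕ) (w : Fin m → ℕ) (d : ℤ) (p : FreeAlgebra ℝ (Fin m)),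
      0 < d ∧ IsWHom (fun i => (w i : ℤ)) d p ∧ image M2 p = T) :=
  ⟨fun _ _ _ _ hd hp => admM_image hp hd, fun _ hT => ⟨_, _, exists_poly_of_admM hT⟩⟩

end Pool.Agent.Results.MP_4e44b6_al.MatrixImages
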