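import Pool.Agent.MP_4e44b6_al.H30.Sufficiency

namespace Pool.Agent.Results.MP_4e44b6_al.QuaternionImages

open Pool.Agent.MP_4e44b6_al.H30 Quaternion

/-- The images of semihomogeneous polynomials on the real quaternions are exactly the cones over
the admissible sets, and each of them is the image of a homogeneous polynomial in two variables. -/
theorem result :
    (∀ (m : ℕ) (w : Fin m → ℤ) (d : ℤ) (p : FreeAlgebra ℝ (Fin m)), d ≠ 0 → IsWHom w d p →
      ∃ S : Set ℝ, Admissible S ∧ image ℍ[ℝ] p = coneOver S) ∧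
    (∀ S : Set ℝ, Admissible S → ∃ (d : ℤ) (p : FreeAlgebra ℝ (Fin 2)),
      0 < d ∧ IsWHom (fun _ => 1) d p ∧ image ℍ[ℝ] p = coneOver S) := by
  refine ⟨fun m w d p hd hp => ⟨dirs p, dirs_admissible p, image_eq_coneOver hp hd⟩,
    fun S hS => ?_⟩
  obtain ⟨A, B, hAB⟩ := exists_cset_of_admissible hS
  obtain ⟨d, p, hd, hp, h⟩ := exists_poly_of_cset A B
  exact ⟨d, p, hd, hp, by rw [image_eq_coneOver hp hd.ne', h, hAB]⟩

end Pool.Agent.Results.MP_4e44b6_al.QuaternionImages
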